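import Pool.Agent.Helper52.NF.St3

/-! Module SUM of the project NF: the signs of the faces have sum zero. -/

set_option autoImplicit false

namespace Pool.Agent.Helper14.NF

open Pool.Agent.Helper52.NF Finset

theorem hSUM : StSUM := by
  classical
  intro V _ G φ σ
  rw [Fintype.sum_sum_type]
  simp only [ft, Sum.elim_inl, Sum.elim_inr, Finset.sum_const_zero, add_zero, fs]
  rw [Finset.sum_fiberwise (s := (Finset.univ : Finset G.Dart)) (g := fun d => fc φ d)
    (f := fun d => σ d.edge)]
  refine Finset.sum_involution (fun d _ => d.symm) ?_ ?_ ?_ ?_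
  · intro d _
    rw [SimpleGraph.Dart.edge_symm]
    exact zz _
  · intro d _ _ h
    exact d.symm_ne h
  · intro d _
    exact Finset.mem_univ _
  · intro d _
    exact SimpleGraph.Dart.symm_symm d

end Pool.Agent.Helper14.NF
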